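import Pool.Agent.Helper61.GL.KC3
import Pool.Agent.Helper92.W.St

/-!
# Lemma K: Kolmogorov-Rogozin in a chain
-/

set_option autoImplicit false

namespace Pool.Agent.Helper61.GL

open Finset Pool.Agent.Helper69.RK Pool.Agent.Helper46.WF

namespace KI

variable {Ω γ α β : Type} [Fintype Ω] (D : KI Ω γ α β)

/-- the error terms -/
noncomputable def Err : ℝ :=
  4 * (D.N * D.ε) + (((D.R : ℝ) + 2) ^ 2 + 1) * ((D.N + 1) * D.ε) +
    (Real.logb 2 (D.N + 1) + D.N * (2 * D.ε + 1) + 3 * D.N * (D.N * D.ε) + 2 * D.R)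

/-- probability of a bad level -/
noncomputable def dt (a hb : ℝ) (t : ℕ) : ℝ := Pw D.μ (fun ω => D.Bd hb t ω ∧ D.Na a t ω)

open Classical in
theorem core (r M : ℕ) (hr : r ≤ D.R) (hM : r + M * (D.R + 1) ≤ D.n)
    (hM' : D.n ≤ r + M * (D.R + 1) + D.R) {a hb δ : ℝ} (ha : 0 < a) (ha1 : a ≤ 1) (hδ : 0 < δ)
    (hg : 0 ≤ D.k + 1 / 2 * Real.logb 2 (a * δ / 2) - (hb + 1)) :
    (((range M).filter (fun m => δ ≤ D.dt a hb (r + m * (D.R + 1) + D.R))).card : ℝ) *
      (δ / 2) * (D.k + 1 / 2 * Real.logb 2 (a * δ / 2) - (hb + 1)) ≤ 14 * M + D.Err := by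
  have h4 : 1 ≤ 4 ^ D.k := Nat.one_le_pow _ _ (by norm_num)
  obtain ⟨Ω', inst, μ', π, h1, h2, h3, h5, h6, _⟩ := st_E8 Ω _ D.μ D.G (4 ^ D.k) D.nn h4
  exact KC.core (Ω' := Ω') { toKI := D, μ' := μ', nn' := h1, π := π, hπ := h2, supp := h3, hG := h5, hCH := fun f => h6 α f D.i0 } r M hr hM hM' ha ha1 hδ hg

open Classical in
/-- number of bad levels -/
theorem count {a hb δ : ℝ} (ha : 0 < a) (ha1 : a ≤ 1) (hδ : 0 < δ)
    (hg : 0 ≤ D.k + 1 / 2 * Real.logb 2 (a * δ / 2) - (hb + 1)) (hn : D.R ≤ D.n) :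
    (((Ico D.R D.n).filter (fun t => δ ≤ D.dt a hb t)).card : ℝ) *
      (δ / 2) * (D.k + 1 / 2 * Real.logb 2 (a * δ / 2) - (hb + 1)) ≤
        14 * D.n + (D.R + 1) * D.Err := by
  set g := D.k + 1 / 2 * Real.logb 2 (a * δ / 2) - (hb + 1) with hgd
  set M : ℕ → ℕ := fun r => (D.n - r) / (D.R + 1) with hM
  have hsub : (Ico D.R D.n).filter (fun t => δ ≤ D.dt a hb t) ⊆
      (range (D.R + 1)).biUnion (fun r => ((range (M r)).filter
        (fun m => δ ≤ D.dt a hb (r + m * (D.R + 1) + D.R))).image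
          (fun m => r + m * (D.R + 1) + D.R)) := by
    intro t ht
    rw [Finset.mem_filter, Finset.mem_Ico] at ht
    rw [Finset.mem_biUnion]
    have hR1 : 0 < D.R + 1 := Nat.succ_pos _
    have e1 : (t - D.R) % (D.R + 1) + (t - D.R) / (D.R + 1) * (D.R + 1) + D.R = t := by
      have := Nat.mod_add_div (t - D.R) (D.R + 1)
      rw [mul_comm ((t - D.R) / (D.R + 1))]
      omega
    refine ⟨(t - D.R) % (D.R + 1), Finset.mem_range.2 (Nat.mod_lt _ hR1), ?_⟩
    rw [Finset.mem_image]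
    refine ⟨(t - D.R) / (D.R + 1), ?_, e1⟩
    rw [Finset.mem_filter, Finset.mem_range, e1]
    refine ⟨?_, ht.2⟩
    simp only [hM]
    rw [Nat.lt_iff_add_one_le, Nat.le_div_iff_mul_le hR1]
    have e2 : ((t - D.R) / (D.R + 1) + 1) * (D.R + 1) =
        (t - D.R) / (D.R + 1) * (D.R + 1) + (D.R + 1) := by ring
    rw [e2]
    omega
  have hcard : (((Ico D.R D.n).filter (fun t => δ ≤ D.dt a hb t)).card : ℝ) ≤
      ∑ r ∈ range (D.R + 1), (((range (M r)).filter
        (fun m => δ ≤ D.dt a hb (r + m * (D.R + 1) + D.R))).card : ℝ) := by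
    have h1 := (Finset.card_le_card hsub).trans Finset.card_biUnion_le
    have h2 : ∑ r ∈ range (D.R + 1), (((range (M r)).filter
        (fun m => δ ≤ D.dt a hb (r + m * (D.R + 1) + D.R))).image
          (fun m => r + m * (D.R + 1) + D.R)).card ≤
        ∑ r ∈ range (D.R + 1), ((range (M r)).filter
        (fun m => δ ≤ D.dt a hb (r + m * (D.R + 1) + D.R))).card :=
      Finset.sum_le_sum fun r _ => Finset.card_image_le
    exact_mod_cast h1.trans h2
  have hgain : 0 ≤ δ / 2 * g := mul_nonneg (by linarith) hg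
  have h1 : (((Ico D.R D.n).filter (fun t => δ ≤ D.dt a hb t)).card : ℝ) * (δ / 2 * g) ≤
      ∑ r ∈ range (D.R + 1), (14 * (M r : ℝ) + D.Err) := by
    refine (mul_le_mul_of_nonneg_right hcard hgain).trans ?_
    rw [Finset.sum_mul]
    refine Finset.sum_le_sum fun r hr => ?_
    have hr' : r ≤ D.R := by
      have := Finset.mem_range.1 hr
      omega
    have hdiv := Nat.div_add_mod (D.n - r) (D.R + 1)
    have hmod := Nat.mod_lt (D.n - r) (Nat.succ_pos D.R)
    have hMr : M r * (D.R + 1) = (D.R + 1) * ((D.n - r) / (D.R + 1)) := by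
      simp only [hM]
      rw [mul_comm]
    have hmod' : (D.n - r) % (D.R + 1) < D.R + 1 := hmod
    have := D.core r (M r) hr' (by rw [hMr]; omega) (by rw [hMr]; omega) ha ha1 hδ hg
    rw [← mul_assoc]
    exact this
  have h2 : ∑ r ∈ range (D.R + 1), (M r : ℝ) ≤ D.n := by
    have h3 : ∀ r ∈ range (D.R + 1), (M r : ℝ) ≤ (D.n : ℝ) / (D.R + 1) := by
      intro r _
      rw [le_div_iff₀ (by positivity)]
      have : M r * (D.R + 1) ≤ D.n := (Nat.div_mul_le_self _ _).trans (Nat.sub_le _ _)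
      exact_mod_cast this
    refine (Finset.sum_le_sum h3).trans (le_of_eq ?_)
    rw [Finset.sum_const, Finset.card_range, nsmul_eq_mul]
    push_cast
    field_simp
  rw [Finset.sum_add_distrib, ← Finset.mul_sum, Finset.sum_const, Finset.card_range,
    nsmul_eq_mul] at h1
  push_cast at h1
  rw [mul_assoc]
  linarith

end KI

end Pool.Agent.Helper61.GL

namespace Pool.Agent.Helper92.W

open Finset Pool.Agent.Helper69.RK Pool.Agent.Helper61.GL Pool.Agent.Helper46.WF

theorem st_K : ST_K := by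
  classical
  intro c a e hc _ ha he C
  set a' : ℝ := min a 1 with ha'
  have ha'0 : 0 < a' := lt_min ha one_pos
  have ha'1 : a' ≤ 1 := min_le_right _ _
  set δ : ℝ := e / 4 with hδd
  have hδ : 0 < δ := by positivity
  set L : ℝ := 1 / 2 * Real.logb 2 (a' * δ / 2) with hL
  -- choice of `R0`
  obtain ⟨R0, hR0⟩ := exists_nat_ge ((C + 3 - L + 224 / (δ * e)) / (c / 2))
  refine ⟨max R0 (C + 3), fun R hR => ?_⟩
  have hRC : C + 3 ≤ R := (le_max_right _ _).trans hR
  have hRR : (R0 : ℝ) ≤ R := by exact_mod_cast (le_max_left _ _).trans hR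
  have hgain : 224 / (δ * e) ≤ c * R / 2 - C - 3 + L := by
    have h1 := hR0.trans hRR
    rw [div_le_iff₀ (by positivity)] at h1
    linarith
  set k : ℕ := R - C - 2 with hk
  have hkR : (k : ℝ) = R - C - 2 := by
    rw [hk, Nat.cast_sub (by omega), Nat.cast_sub (by omega)]
    norm_num
  set N : ℝ := 4 ^ k with hN
  have hN1 : 1 ≤ N := one_le_pow₀ (by norm_num)
  set A : ℝ := 4 * N + (((R : ℝ) + 2) ^ 2 + 1) * (N + 1) + 2 * N + 3 * N * N with hA
  set B : ℝ := Real.logb 2 (N + 1) + N + 2 * R with hB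
  have hA0 : 0 ≤ A := by rw [hA]; positivity
  refine ⟨1 / ((R + 1) * (A + 1)), by positivity, ?_⟩
  obtain ⟨n1, hn1⟩ := exists_nat_ge ((R + 1) * B)
  obtain ⟨n2, hn2⟩ := exists_nat_ge (7 / e)
  refine ⟨max (max n1 n2) (R + 1), fun n T hn Ω γ β κ _ μ z ζ v F cl hμ hm hz _ href hlip htc hab => ?_⟩
  have hn1' : (R + 1) * B ≤ n := hn1.trans (by
    exact_mod_cast ((le_max_left n1 n2).trans (le_max_left _ _)).trans hn)
  have hn2' : 7 / e ≤ n := hn2.trans (by
    exact_mod_cast ((le_max_right n1 n2).trans (le_max_left _ _)).trans hn)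
  have hn3 : R + 1 ≤ n := (le_max_right _ _).trans hn
  rw [div_le_iff₀ he] at hn2'
  set D : KI Ω γ β κ :=
    { μ := μ, nn := hμ, ms := hm, z := z, hz := hz, ζ := ζ, v := v, F := F, cl := cl, C := C,
      R := R, T := T, n := n, ε := 1 / ((R + 1) * (A + 1)) * n, hR := hRC, ref := href,
      lip := hlip, tc := htc, ab := hab } with hD
  set hb : ℝ := R - c * R / 2 with hhb
  have hg : (D.k : ℝ) + 1 / 2 * Real.logb 2 (a' * δ / 2) - (hb + 1) = c * R / 2 - C - 3 + L := by
    have : (D.k : ℝ) = R - C - 2 := hkR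
    rw [this]
    ring
  have hpos : 0 < 224 / (δ * e) := by positivity
  have hcount := D.count (hb := hb) ha'0 ha'1 hδ (by rw [hg]; linarith) (by change R ≤ n; omega)
  rw [hg] at hcount
  -- the error
  have hErr : (R + 1) * D.Err ≤ 2 * n := by
    have e1 : D.Err = A * (1 / ((R + 1) * (A + 1)) * n) + B := by
      have e2 : D.N = N := rfl
      have e3 : D.ε = 1 / ((R + 1) * (A + 1)) * n := rfl
      have e4 : D.R = R := rfl
      unfold KI.Err
      rw [e2, e3, e4, hA, hB]
      ring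
    rw [e1]
    have e5 : (R + 1) * (A * (1 / ((R + 1) * (A + 1)) * n)) = A / (A + 1) * n := by
      field_simp
    have e6 : A / (A + 1) ≤ 1 := by
      rw [div_le_one (by positivity)]
      linarith
    have e7 : A / (A + 1) * n ≤ 1 * n := mul_le_mul_of_nonneg_right e6 (Nat.cast_nonneg _)
    rw [mul_add, e5]
    linarith
  -- number of bad levels
  have hbad : (((Ico R n).filter (fun t => δ ≤ D.dt a' hb t)).card : ℝ) ≤ e * n / 7 := by
    have h1 : (((Ico R n).filter (fun t => δ ≤ D.dt a' hb t)).card : ℝ) * (δ / 2) *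
        (224 / (δ * e)) ≤ 14 * n + (R + 1) * D.Err := by
      refine le_trans ?_ hcount
      exact mul_le_mul_of_nonneg_left hgain (by positivity)
    have h2 : (((Ico R n).filter (fun t => δ ≤ D.dt a' hb t)).card : ℝ) * (δ / 2) *
        (224 / (δ * e)) = (((Ico R n).filter (fun t => δ ≤ D.dt a' hb t)).card : ℝ) * (112 / e) := by
      field_simp
      ring
    rw [h2] at h1
    have h3 : (((Ico R n).filter (fun t => δ ≤ D.dt a' hb t)).card : ℝ) * (112 / e) ≤ 16 * n := by
      linarith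
    rw [mul_div_assoc', div_le_iff₀ he] at h3
    linarith
  -- the sum
  have hd0 : ∀ t, 0 ≤ D.dt a' hb t := fun t => Pw_nonneg _ D.nn _
  have hd1 : ∀ t, D.dt a' hb t ≤ 1 := fun t => Pw_le_one _ D.nn D.ms _
  have hterm : ∀ l ∈ range (n + 1 - T), Pw μ (fun ω => DL μ z c R (l + T) ω ∧
      ∀ x : ℝ, a ≤ Pw (cw μ (fun ω' => cl l (v ω')) ω)
        (fun ω' => (1 / 2) ^ (l + T) < |F (ζ ω) (v ω') - x|)) ≤
      if R ≤ l + T then D.dt a' hb (l + T) else 0 := by
    intro l _
    by_cases hl : R ≤ l + T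
    · rw [if_pos hl]
      refine Pw_mono μ hμ fun ω _ hω => ?_
      refine ⟨?_, fun x => ?_⟩
      · have h1 := hω.1.2
        unfold de at h1
        change LH μ (fun ω => fl (l + T) (z ω)) (fun ω => fl (l + T - R) (z ω)) ω ≤ hb
        rw [hhb]
        linarith
      · have h1 := hω.2 x
        have h2 : l + T - T = l := by omega
        change a' ≤ Pw (cw μ (fun ω' => cl (l + T - T) (v ω')) ω)
          (fun ω' => (1 / 2) ^ (l + T) < |F (ζ ω) (v ω') - x|)
        rw [h2]
        exact (min_le_left _ _).trans h1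
    · rw [if_neg hl]
      have : Pw μ (fun ω => DL μ z c R (l + T) ω ∧
        ∀ x : ℝ, a ≤ Pw (cw μ (fun ω' => cl l (v ω')) ω)
        (fun ω' => (1 / 2) ^ (l + T) < |F (ζ ω) (v ω') - x|)) = 0 := by
        unfold Pw
        refine Finset.sum_eq_zero fun ω _ => ?_
        rw [if_neg]
        intro h
        exact hl h.1.1
      rw [this]
  refine (Finset.sum_le_sum hterm).trans ?_
  have hsum1 : ∑ l ∈ range (n + 1 - T), (if R ≤ l + T then D.dt a' hb (l + T) else 0) ≤
      ∑ t ∈ Ico R (n + 1), D.dt a' hb t := by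
    rw [← Finset.sum_filter]
    have : ∑ l ∈ (range (n + 1 - T)).filter (fun l => R ≤ l + T), D.dt a' hb (l + T)
        = ∑ t ∈ ((range (n + 1 - T)).filter (fun l => R ≤ l + T)).image (fun l => l + T),
          D.dt a' hb t := by
      rw [Finset.sum_image]
      intro x _ y _ hxy
      exact Nat.add_right_cancel hxy
    rw [this]
    refine Finset.sum_le_sum_of_subset_of_nonneg ?_ (fun t _ _ => hd0 t)
    intro t ht
    obtain ⟨l, hl, rfl⟩ := Finset.mem_image.1 ht
    rw [Finset.mem_filter, Finset.mem_range] at hl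
    rw [Finset.mem_Ico]
    omega
  refine hsum1.trans ?_
  rw [Finset.sum_Ico_succ_top (by omega)]
  have hsum2 : ∑ t ∈ Ico R n, D.dt a' hb t ≤
      (((Ico R n).filter (fun t => δ ≤ D.dt a' hb t)).card : ℝ) + δ * n := by
    calc ∑ t ∈ Ico R n, D.dt a' hb t
        ≤ ∑ t ∈ Ico R n, ((if δ ≤ D.dt a' hb t then (1 : ℝ) else 0) + δ) := by
          refine Finset.sum_le_sum fun t _ => ?_
          by_cases h : δ ≤ D.dt a' hb t
          · rw [if_pos h]
            linarith [hd1 t]
          · rw [if_neg h]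
            push Not at h
            linarith
      _ ≤ _ := by
          rw [Finset.sum_add_distrib, Finset.sum_boole, Finset.sum_const, Nat.card_Ico,
            nsmul_eq_mul]
          have h1 : ((n - R : ℕ) : ℝ) * δ ≤ n * δ :=
            mul_le_mul_of_nonneg_right (by exact_mod_cast Nat.sub_le _ _) hδ.le
          linarith
  have h3 := hd1 n
  have h4 : δ * n = e * n / 4 := by
    rw [hδd]
    ring
  have h5 : (0 : ℝ) ≤ e * n := by positivity
  linarith

end Pool.Agent.Helper92.W
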